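import Pool.Agent.H44.EHN.Stmts

/-! Row BLK of board ehn: a block with many elements. -/

set_option autoImplicit false

open Classical

namespace EHN

theorem blk_thm : BLKStmt := by
  intro G N J L hJ hG hc
  obtain ⟨y, _, hy⟩ := Finset.exists_le_card_fiber_of_mul_le_card_of_maps_to
    (s := G) (t := Finset.range (N / J + 1)) (f := fun q => q / J) (n := 2 * L)
    (fun q hq => Finset.mem_range.2 (Nat.lt_succ_of_le (Nat.div_le_div_right (hG q hq))))
    ⟨0, Finset.mem_range.2 (Nat.succ_pos _)⟩ (by rw [Finset.card_range, mul_comm]; exact hc)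
  set B := G.filter (fun q => q / J = y) with hB
  have hmem : ∀ q ∈ B, q ∈ G ∧ y * J ≤ q ∧ q < y * J + J := by
    intro q hq
    obtain ⟨h1, h2⟩ := Finset.mem_filter.1 hq
    refine ⟨h1, ?_, ?_⟩
    · rw [← h2]; exact Nat.div_mul_le_self q J
    · rw [← h2]
      have := Nat.lt_div_mul_add (a := q) (b := J) (by omega)
      exact this
  let f : ℕ → ℕ := fun k => if h : k < B.card then B.orderEmbOfFin rfl ⟨k, h⟩ else 0
  have hf : ∀ k, k < 2 * L → f k ∈ B := by
    intro k hk
    have h : k < B.card := lt_of_lt_of_le hk hy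
    simp only [f, dif_pos h]
    exact Finset.orderEmbOfFin_mem B rfl _
  have hlt : ∀ k l, k < l → l < 2 * L → f k < f l := by
    intro k l hkl hl
    have h : l < B.card := lt_of_lt_of_le hl hy
    have h' : k < B.card := hkl.trans h
    simp only [f, dif_pos h, dif_pos h']
    exact (B.orderEmbOfFin rfl).strictMono (by simpa using hkl)
  have hle : ∀ k l, k ≤ l → l < 2 * L → f k ≤ f l := by
    intro k l hkl hl
    rcases hkl.lt_or_eq with h | h
    · exact (hlt k l h hl).le
    · rw [h]
  refine ⟨fun i => f (2 * i), fun i => f (2 * i + 1), ?_, ?_, ?_⟩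
  · intro i hi
    exact ⟨(hmem _ (hf _ (by omega))).1, (hmem _ (hf _ (by omega))).1,
      hlt _ _ (by omega) (by omega)⟩
  · intro i j hij hj
    exact hlt _ _ (by omega) (by omega)
  · intro i hi
    refine ⟨hle _ _ (by omega) (by omega), ?_⟩
    have h1 := (hmem _ (hf (2 * i + 1) (by omega))).2.2
    have h2 := (hmem _ (hf (2 * 0) (by omega))).2.1
    show f (2 * i + 1) ≤ f (2 * 0) + J
    omega

end EHN
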